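import Pool.Agent.helper81.DI.SpecA

/-!
# Project di: A5
-/

set_option autoImplicit false

namespace Pool.Agent.DI

open Pool.Agent.helper58.DC

section

variable {Γ : Type} [Group Γ]

open Classical in
theorem A5_nrm_insert (P : Subgroup Γ) (C : Finset (Subgroup Γ)) :
    nrm (insert P C) = nz P ⊓ nrm C := by
  unfold nrm
  exact Finset.iInf_insert P C _

theorem A5_nrm_single (P : Subgroup Γ) : nrm ({P} : Finset (Subgroup Γ)) = nz P := by
  unfold nrm
  exact Finset.iInf_singleton P _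

theorem A5_single {p : ℕ} {L P : Subgroup Γ} (hP : IsPGroup p P) (hL : P ≤ L) :
    PCh p L P {P} := by
  refine ⟨?_, Finset.mem_singleton_self P, ?_, ?_, ?_⟩
  · rw [Finset.coe_singleton]
    exact Set.subsingleton_singleton.isChain
  · intro Q hQ
    rw [Finset.mem_singleton.1 hQ]
  · intro Q hQ
    rwa [Finset.mem_singleton.1 hQ]
  · intro Q hQ
    rwa [Finset.mem_singleton.1 hQ]

open Classical in
theorem A5_insert {p : ℕ} {L P P₁ : Subgroup Γ} (hP : IsPGroup p P) (hL : P ≤ L) (h1 : P < P₁)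
    {C : Finset (Subgroup Γ)} (hC : PCh p L P₁ C) : PCh p L P (insert P C) := by
  have hle : ∀ Q ∈ C, P ≤ Q := fun Q hQ => h1.le.trans (hC.bot Q hQ)
  refine ⟨?_, Finset.mem_insert_self P C, ?_, ?_, ?_⟩
  · rw [Finset.coe_insert]
    exact hC.chain.insert fun Q hQ _ => Or.inl (hle Q hQ)
  · intro Q hQ
    rcases Finset.mem_insert.1 hQ with h | h
    · rw [h]
    · exact hle Q h
  · intro Q hQ
    rcases Finset.mem_insert.1 hQ with h | h
    · rwa [h]
    · exact hC.le Q h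
  · intro Q hQ
    rcases Finset.mem_insert.1 hQ with h | h
    · rwa [h]
    · exact hC.pg Q h

theorem A5_notMem {p : ℕ} {L P P₁ : Subgroup Γ} (h1 : P < P₁)
    {C : Finset (Subgroup Γ)} (hC : PCh p L P₁ C) : P ∉ C := fun h =>
  absurd (hC.bot P h) (not_le_of_gt h1)

open Classical in
theorem A5_least {C : Finset (Subgroup Γ)} (hC : IsChain (· ≤ ·) (C : Set (Subgroup Γ)))
    (hne : C.Nonempty) : ∃ P ∈ C, ∀ Q ∈ C, P ≤ Q := by
  obtain ⟨P, hP⟩ := C.exists_minimal hne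
  refine ⟨P, hP.1, fun Q hQ => ?_⟩
  rcases hC.total hP.1 hQ with h | h
  · exact h
  · exact hP.2 hQ h

open Classical in
theorem A5_erase {p : ℕ} {L P : Subgroup Γ} {C : Finset (Subgroup Γ)} (hC : PCh p L P C)
    (hne : C ≠ {P}) : ∃ P₁, P < P₁ ∧ P₁ ≤ L ∧ IsPGroup p P₁ ∧ PCh p L P₁ (C.erase P) := by
  have hch : IsChain (· ≤ ·) ((C.erase P : Finset (Subgroup Γ)) : Set (Subgroup Γ)) := by
    refine hC.chain.mono ?_
    exact_mod_cast Finset.erase_subset P C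
  have hne2 : (C.erase P).Nonempty := by
    rw [Finset.nonempty_iff_ne_empty]
    intro h0
    have h3 := Finset.insert_erase hC.mem
    rw [h0] at h3
    exact hne (by rw [← h3]; rfl)
  obtain ⟨P₁, hP₁, hmin⟩ := A5_least hch hne2
  obtain ⟨hne3, hP₁C⟩ := Finset.mem_erase.1 hP₁
  refine ⟨P₁, lt_of_le_of_ne (hC.bot P₁ hP₁C) (Ne.symm hne3), hC.le P₁ hP₁C, hC.pg P₁ hP₁C,
    hch, hP₁, hmin, ?_, ?_⟩
  · exact fun Q hQ => hC.le Q (Finset.mem_of_mem_erase hQ)
  · exact fun Q hQ => hC.pg Q (Finset.mem_of_mem_erase hQ)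

end

open Classical in
theorem A5 : A5_stmt := by
  intro Γ _ _ p _ L P M g hP hL
  have hfin : ∀ S : Set (Finset (Subgroup Γ)), S.Finite := fun S => Set.toFinite S
  have hfin' : ∀ S : Set (Subgroup Γ), S.Finite := fun S => Set.toFinite S
  set F : Finset (Subgroup Γ) → ℤ := fun C => (-1) ^ (C.card + 1) * g (M ⊓ nrm C) with hF
  have hlhs : cSum p L P M g = ∑ᶠ C ∈ {C : Finset (Subgroup Γ) | PCh p L P C}, F C := rfl
  set S : Set (Finset (Subgroup Γ)) := {C | PCh p L P C} with hS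
  have hSmem : ({P} : Finset (Subgroup Γ)) ∈ S := A5_single hP hL
  set A : Set (Finset (Subgroup Γ)) := S \ {{P}} with hA
  have hSA : S = insert {P} A := (Set.insert_sdiff_self_of_mem hSmem).symm
  have h1 : ∑ᶠ C ∈ S, F C = F {P} + ∑ᶠ C ∈ A, F C := by
    rw [hSA]
    refine finsum_mem_insert F ?_ (hfin A)
    intro h
    exact h.2 rfl
  set T : Set (Subgroup Γ) := {P₁ : Subgroup Γ | P < P₁ ∧ P₁ ≤ L ∧ IsPGroup p P₁} with hT
  have h2 : ∑ᶠ C ∈ A, F C =
      ∑ᶠ C' ∈ ⋃ P₁ ∈ T, {C : Finset (Subgroup Γ) | PCh p L P₁ C}, F (insert P C') := by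
    symm
    refine finsum_mem_eq_of_bijOn (fun C => insert P C) ⟨?_, ?_, ?_⟩ (fun _ _ => rfl)
    · intro C hC
      obtain ⟨P₁, hP₁, hC⟩ := Set.mem_iUnion₂.1 hC
      refine ⟨A5_insert hP hL hP₁.1 hC, ?_⟩
      intro h0
      have h3 : P₁ ∈ insert P C := Finset.mem_insert_of_mem hC.mem
      have h0' : insert P C = {P} := h0
      rw [h0', Finset.mem_singleton] at h3
      exact absurd h3 hP₁.1.ne'
    · intro C hC D hD hCD
      obtain ⟨P₁, hP₁, hC⟩ := Set.mem_iUnion₂.1 hC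
      obtain ⟨P₂, hP₂, hD⟩ := Set.mem_iUnion₂.1 hD
      have h3 := congrArg (fun X => Finset.erase X P) hCD
      simp only at h3
      rwa [Finset.erase_insert (A5_notMem hP₁.1 hC), Finset.erase_insert (A5_notMem hP₂.1 hD)] at h3
    · intro C hC
      obtain ⟨P₁, h3, h4, h5, h6⟩ := A5_erase (hC.1 : PCh p L P C) (fun h0 => hC.2 h0)
      refine ⟨C.erase P, Set.mem_iUnion₂.2 ⟨P₁, ⟨h3, h4, h5⟩, h6⟩, ?_⟩
      exact Finset.insert_erase (hC.1 : PCh p L P C).mem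
  have h3 : ∑ᶠ C' ∈ ⋃ P₁ ∈ T, {C : Finset (Subgroup Γ) | PCh p L P₁ C}, F (insert P C') =
      ∑ᶠ P₁ ∈ T, ∑ᶠ C' ∈ {C : Finset (Subgroup Γ) | PCh p L P₁ C}, F (insert P C') := by
    refine finsum_mem_biUnion ?_ (hfin' T) (fun _ _ => hfin _)
    intro P₁ _ P₂ _ hne
    rw [Function.onFun, Set.disjoint_left]
    intro C hC hD
    have hC' : PCh p L P₁ C := hC
    have hD' : PCh p L P₂ C := hD
    exact hne (le_antisymm (hC'.bot _ hD'.mem) (hD'.bot _ hC'.mem))
  have h4 : ∀ P₁ ∈ T, ∑ᶠ C' ∈ {C : Finset (Subgroup Γ) | PCh p L P₁ C}, F (insert P C') =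
      -cSum p L P₁ (M ⊓ nz P) g := by
    intro P₁ hP₁
    unfold cSum
    rw [← finsum_mem_neg_distrib _ (hfin _)]
    refine finsum_mem_congr rfl fun C hC => ?_
    rw [hF]
    simp only
    rw [Finset.card_insert_of_notMem (A5_notMem hP₁.1 hC), A5_nrm_insert, inf_assoc]
    ring
  rw [hlhs, h1, h2, h3, finsum_mem_congr rfl h4, finsum_mem_neg_distrib _ (hfin' T)]
  have h5 : F {P} = g (M ⊓ nz P) := by
    rw [hF]
    simp only
    rw [A5_nrm_single, Finset.card_singleton]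
    ring
  rw [h5, sub_eq_add_neg]

end Pool.Agent.DI
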